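import Pool.Agent.Lib.MP_6a3a89_al.Main

set_option autoImplicit false

/-!
# A `G`-continuous norm whose Sobolev norm of order two is not `G`-continuous

`G = SL(2,ℝ) × SL(2,ℝ)`, `K = SO(2) × SO(2)`, `V` the Laurent polynomials in two variables, i.e. the
`K`-finite functions on the product of two circles, on which `G` acts by Möbius transformations,
`p` the sup norm on the torus and `s = 2`.
-/

namespace Pool.Agent.Results.MP_6a3a89_al.SobolevCounterexample

open Pool.Agent.Lib.MP_6a3a89_al

/-- The Laplacian of `K` on the monomial basis. -/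
theorem laplacianK_bV (c : ℝ) (p : ℤ × ℤ) : laplacianK c dpi (bV p) =
    ((4 * c * ((p.1 : ℝ) ^ 2 + (p.2 : ℝ) ^ 2) : ℝ) : ℂ) • bV p := by
  have h1 : dpi (JJ, 0) (bV p) = (2 * Complex.I * p.1) • bV p := by
    rw [dpi_bV]
    change (p.1 : ℂ) • (u1 (JJ : M2) * bV p) + (p.2 : ℂ) • (u2 ((0 : sl) : M2) * bV p) = _
    rw [u2_zero, zero_mul, smul_zero, add_zero, u1, cP_JJ, cQ_JJ, map_zero, neg_zero, zero_smul,
      zero_smul, zero_add, add_zero, smul_mul_assoc, one_mul, smul_smul]
    congr 1
    ring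
  have h2 : dpi (0, JJ) (bV p) = (2 * Complex.I * p.2) • bV p := by
    rw [dpi_bV]
    change (p.1 : ℂ) • (u1 ((0 : sl) : M2) * bV p) + (p.2 : ℂ) • (u2 (JJ : M2) * bV p) = _
    rw [u1_zero, zero_mul, smul_zero, zero_add, u2, cP_JJ, cQ_JJ, map_zero, neg_zero, zero_smul,
      zero_smul, zero_add, add_zero, smul_mul_assoc, one_mul, smul_smul]
    congr 1
    ring
  rw [laplacianK, LinearMap.neg_apply, LinearMap.smul_apply, LinearMap.add_apply, pow_two, pow_two,
    Module.End.mul_apply, Module.End.mul_apply, h1, h2, map_smul, map_smul, h1, h2, smul_smul,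
    smul_smul, ← add_smul, smul_smul, ← neg_smul]
  congr 1
  push_cast
  linear_combination (-(4 * c * ((p.1 : ℂ) ^ 2 + (p.2 : ℂ) ^ 2))) * Complex.I_mul_I

theorem repr_laplacianK (c : ℝ) (v : VV) (p : ℤ × ℤ) : bV.repr (laplacianK c dpi v) p =
    ((4 * c * ((p.1 : ℝ) ^ 2 + (p.2 : ℝ) ^ 2) : ℝ) : ℂ) * bV.repr v p := by
  classical
  induction v using VV_induction with
  | h0 => simp
  | hadd u w hu hw => rw [map_add, map_add, map_add, Finsupp.add_apply, Finsupp.add_apply, hu, hw]
                      ring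
  | hb b r =>
    rw [map_smul, laplacianK_bV, map_smul, map_smul, map_smul, Module.Basis.repr_self]
    simp only [Finsupp.smul_apply, smul_eq_mul, Finsupp.single_apply]
    by_cases hab : b = p
    · subst hab; simp; ring
    · simp [hab]

theorem isSobolevOperator_Dop (c : ℝ) : IsSobolevOperator c dpi 2 (Dop (4 * c)) := by
  intro μ v hv
  rw [div_self (two_ne_zero), Real.rpow_one]
  have h1 : ∀ p : ℤ × ℤ, bV.repr v p ≠ 0 → ((4 * c * ((p.1 : ℝ) ^ 2 + (p.2 : ℝ) ^ 2) : ℝ) : ℂ) = μ := by
    intro p hp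
    have h2 := repr_laplacianK c v p
    rw [hv, map_smul, Finsupp.smul_apply, smul_eq_mul] at h2
    exact (mul_right_cancel₀ hp h2).symm
  conv_lhs => rw [← bV.linearCombination_repr v]
  conv_rhs => rw [← bV.linearCombination_repr v]
  rw [Finsupp.linearCombination_apply, Finsupp.sum, map_sum, Finset.smul_sum]
  refine Finset.sum_congr rfl fun p hp => ?_
  rw [map_smul, Dop, wt_bV, smul_comm]
  congr 1
  push_cast
  rw [← h1 p (Finsupp.mem_support_iff.1 hp)]
  push_cast
  rfl

theorem unique_Dop (c : ℝ) (D : Module.End ℂ VV) (hD : IsSobolevOperator c dpi 2 D) :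
    D = Dop (4 * c) := by
  apply VV_lin_ext
  intro p
  rw [hD _ _ (laplacianK_bV c p), Dop, wt_bV, div_self (two_ne_zero), Real.rpow_one]

/-- **Main theorem.** There are a Harish-Chandra module `(V, dπ, κ)` of `G = SL(2,ℝ) × SL(2,ℝ)` and
a `G`-continuous norm `p` on `V` such that the Sobolev norm `p₂ = p ∘ D₂`, `D₂ = 1 + Δ_K`, is not
`G`-continuous.  This holds for every normalisation `c > 0` of the invariant form which defines
`Δ_K = - c ((J,0)² + (0,J)²)`; the Cartan-Killing form is `c = 1/8`. -/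
theorem result :
    ∃ (V : Type) (_ : AddCommGroup V) (_ : Module ℂ V)
      (dπ : LG → Module.End ℂ V) (κ : GG → Module.End ℂ V),
      IsHarishChandraModule dπ κ ∧
      ∃ p : Seminorm ℂ V, (∀ v : V, p v = 0 → v = 0) ∧ IsGContinuous dπ κ p ∧
        ∀ c : ℝ, 0 < c → (∃! D : Module.End ℂ V, IsSobolevOperator c dπ 2 D) ∧
          ∀ D : Module.End ℂ V, IsSobolevOperator c dπ 2 D →
            ¬ IsGContinuous dπ κ (fun v => p (D v)) := by
  refine ⟨VV, inferInstance, inferInstance, dpi, kapG, isHarishChandraModule,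
    (normSeminorm ℂ EE).comp iota.toLinearMap, ?_, isGContinuous_sup, ?_⟩
  · intro v hv
    have h1 : ‖iota v‖ = 0 := hv
    rw [norm_eq_zero] at h1
    exact iota_injective (h1.trans (map_zero iota).symm)
  · intro c hc
    refine ⟨⟨Dop (4 * c), isSobolevOperator_Dop c, fun D hD => unique_Dop c D hD⟩, ?_⟩
    intro D hD
    rw [unique_Dop c D hD]
    exact not_isGContinuous (by positivity)

end Pool.Agent.Results.MP_6a3a89_al.SobolevCounterexample
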